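import Pool.Agent.R132.APN3

set_option autoImplicit false

/-!
# The exclude multiplicities of the graph of a plateaued APN function are odd

Proof for even `n = 2 k ≥ 4`. Let `c = F a + b ≠ 0`. By the known criterion (proved again in
`Pool.Agent.R132.APN3`) the multiplicity of `(a, b)` is odd if the number of the bent components `v`
with `v · c = 0` is even. The sum of `W_F(0, v)` over all `v` with `v · c = 0` is a multiple of
`2^(n-1)`, and `W_F(0, v)` is `±2^k` for bent components and a multiple of `2^(k+1)` for the other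
components of a plateaued function. So the number is even, because `n - 1 ≥ k + 1`.
-/

namespace Pool.Agent.Results.MP_b298ef_co.OddMultiplicities

open Finset

/-- the standard inner product on `F_2^n` -/
def dot {n : ℕ} (u x : Fin n → ZMod 2) : ZMod 2 := ∑ i, u i * x i

/-- the Walsh transform `W_F(u, v) = ∑ (-1)^(v · F(x) + u · x)` -/
def walsh {n : ℕ} (F : (Fin n → ZMod 2) → (Fin n → ZMod 2)) (u v : Fin n → ZMod 2) : ℤ :=
  ∑ x, (-1) ^ (dot v (F x) + dot u x).val

/-- `F` is APN: for `a ≠ 0` every equation `F x + F (x + a) = b` has at most two solutions. -/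
def IsAPN {n : ℕ} (F : (Fin n → ZMod 2) → (Fin n → ZMod 2)) : Prop :=
  ∀ a, a ≠ 0 → ∀ b, (univ.filter fun x => F x + F (x + a) = b).card ≤ 2

/-- `F` is plateaued: for every `v ≠ 0` there is `λ ≥ 0` with `W_F(u, v) ∈ {0, λ, -λ}` for all
`u`. -/
def IsPlateaued {n : ℕ} (F : (Fin n → ZMod 2) → (Fin n → ZMod 2)) : Prop :=
  ∀ v, v ≠ 0 → ∃ lam : ℝ, 0 ≤ lam ∧ ∀ u, (walsh F u v : ℝ) = 0 ∨ (walsh F u v : ℝ) = lam ∨
    (walsh F u v : ℝ) = -lam

/-- the graph of `F` -/
def graph {n : ℕ} (F : (Fin n → ZMod 2) → (Fin n → ZMod 2)) :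
    Finset ((Fin n → ZMod 2) × (Fin n → ZMod 2)) := univ.image fun x => (x, F x)

/-- the exclude multiplicity: the number of the 3-element subsets of the graph with sum `p` -/
def mult {n : ℕ} (F : (Fin n → ZMod 2) → (Fin n → ZMod 2))
    (p : (Fin n → ZMod 2) × (Fin n → ZMod 2)) : ℕ :=
  (((graph F).powersetCard 3).filter fun T => ∑ t ∈ T, t = p).card

/-- For every `n ≥ 3` and every plateaued APN function `F` on `F_2^n` the exclude multiplicity of
every point outside of the graph of `F` is odd. -/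
theorem result (n : ℕ) (hn : 3 ≤ n) (F : (Fin n → ZMod 2) → (Fin n → ZMod 2)) (hA : IsAPN F)
    (hP : IsPlateaued F) (p : (Fin n → ZMod 2) × (Fin n → ZMod 2)) (hp : p ∉ graph F) :
    Odd (mult F p) := by
  obtain ⟨a, b⟩ := p
  have hb : b ≠ F a := by
    rintro rfl
    exact hp (mem_image.2 ⟨a, mem_univ _, rfl⟩)
  exact Pool.Agent.R132.APN.odd_mult hn hA hP a b hb

end Pool.Agent.Results.MP_b298ef_co.OddMultiplicities
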